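import Mathlib
import Pool.Agent.V11130.Stable

/-!
# Tight (k,0)-stable graphs for large k

There is `k₀` such that for all `k ≥ k₀` every tight `(k,0)`-stable graph is `K_{k+1}` or `K_{k+2}`.
-/

set_option autoImplicit false

namespace Pool.Agent.Results.MP_476b05_co.OnlyComplete

open Finset Pool.Agent.V11130.Stable

/-- `G` is `(k,l)`-stable: deleting any `k` vertices lowers the independence number by at most `l` -/
def IsStable (k l : ℕ) {V : Type} (G : SimpleGraph V) : Prop :=
  ∀ S : Finset V, S.card = k → G.indepNum ≤ (G.induce {v | v ∉ S}).indepNum + l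

/-- tight `(k,0)`-stable graphs on `n` vertices: `(k,0)`-stable with `α(G) = ⌊(n - k + 1)/2⌋` -/
def IsTight (k : ℕ) {n : ℕ} (G : SimpleGraph (Fin n)) : Prop :=
  IsStable k 0 G ∧ (G.indepNum : ℤ) = ((n : ℤ) - (k : ℤ) + 1) / 2

theorem stable_set {k n : ℕ} {G : SimpleGraph (Fin n)} (hst : IsStable k 0 G) (S : Finset (Fin n))
    (hS : S.card ≤ k) (hk : k ≤ n) : ∃ T : Finset (Fin n), Ind G T ∧ T.card = G.indepNum ∧ Disjoint T S := by
  obtain ⟨S', hS', hS'c⟩ := Finset.exists_superset_card_eq hS (by rwa [Fintype.card_fin])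
  obtain ⟨T, h1, h2, h3⟩ := exists_of_stable G S' (by simpa using hst S' hS'c)
  exact ⟨T, h1, h2, Finset.disjoint_of_subset_right hS' h3⟩

open scoped Classical in
/-- non-neighbours (and the vertex itself) -/
noncomputable def non {n : ℕ} (G : SimpleGraph (Fin n)) (v : Fin n) : Finset (Fin n) :=
  univ.filter fun u => ¬ G.Adj v u

theorem non_card {k n : ℕ} {G : SimpleGraph (Fin n)} (hst : IsStable k 0 G) (hk : k ≤ n)
    (v : Fin n) : (non G v).card + k ≤ n := by
  classical
  set S : Finset (Fin n) := univ.filter fun u => G.Adj v u with hS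
  have h1 : S.card + (non G v).card = n := by
    rw [hS, non, Finset.card_filter_add_card_filter_not, Finset.card_univ, Fintype.card_fin]
  have h2 : k ≤ S.card := by
    by_contra hcon
    push Not at hcon
    obtain ⟨T, t1, t2, t3⟩ := stable_set hst (insert v S) ((Finset.card_insert_le _ _).trans hcon) hk
    rw [Finset.disjoint_left] at t3
    have hv : v ∉ T := fun h => t3 h (mem_insert_self _ _)
    have hind : Ind G (insert v T) := by
      intro x hx y hy hxy
      rw [mem_insert] at hx hy
      rcases hx with rfl | hx <;> rcases hy with rfl | hy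
      · exact G.irrefl hxy
      · exact t3 hy (mem_insert_of_mem (by simp [hS, hxy]))
      · exact t3 hx (mem_insert_of_mem (by simp [hS, hxy.symm]))
      · exact t1 x hx y hy hxy
    have := card_le_of_ind G _ hind
    rw [Finset.card_insert_of_notMem hv] at this
    omega
  omega

theorem exists_clique {k n : ℕ} {G : SimpleGraph (Fin n)} (hst : IsStable k 0 G) (hk : k ≤ n)
    (hbig : (n - k) * (n - k) < n) : ∀ j ≤ n - k, ∃ W : Finset (Fin n), W.card = j ∧
      ∀ x ∈ W, ∀ y ∈ W, x ≠ y → G.Adj x y := by
  classical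
  intro j
  induction j with
  | zero => intro _; exact ⟨∅, rfl, by simp⟩
  | succ j ih =>
    intro hj
    obtain ⟨W, hW, hcl⟩ := ih (by omega)
    have h1 : (W.biUnion (non G)).card ≤ W.card * (n - k) := by
      apply Finset.card_biUnion_le_card_mul
      intro v _
      have := non_card hst hk v
      omega
    have h2 : (W.biUnion (non G)).card < (univ : Finset (Fin n)).card := by
      rw [Finset.card_univ, Fintype.card_fin]
      refine lt_of_le_of_lt h1 (lt_of_le_of_lt ?_ hbig)
      apply Nat.mul_le_mul_right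
      omega
    obtain ⟨u, _, hu⟩ := Finset.exists_mem_notMem_of_card_lt_card h2
    rw [mem_biUnion] at hu
    push Not at hu
    have hadj : ∀ x ∈ W, G.Adj x u := by
      intro x hx
      have := hu x hx
      simpa [non] using this
    have huW : u ∉ W := fun h => G.irrefl (hadj u h)
    refine ⟨insert u W, by rw [Finset.card_insert_of_notMem huW, hW], ?_⟩
    intro x hx y hy hxy
    rw [mem_insert] at hx hy
    rcases hx with rfl | hx <;> rcases hy with rfl | hy
    · exact absurd rfl hxy
    · exact (hadj y hy).symm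
    · exact hadj x hx
    · exact hcl x hx y hy hxy

/-- deleting `k - 3` vertices: the difference `n - k` is bounded -/
theorem diff_bounded : ∃ N : ℕ, ∀ (k n : ℕ) (G : SimpleGraph (Fin n)), 3 ≤ k → k ≤ n → IsStable k 0 G →
    n ≤ k + 2 * G.indepNum → n ≤ k + N := by
  classical
  obtain ⟨N, hN⟩ := stable_bounded 3
  refine ⟨N, ?_⟩
  intro k n G hk hkn hst hα
  obtain ⟨S₀, hS₀⟩ : ∃ S₀ : Finset (Fin n), S₀.card = k - 3 := by
    obtain ⟨S, _, hS⟩ := Finset.exists_subset_card_eq (s := (univ : Finset (Fin n))) (n := k - 3)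
      (by rw [Finset.card_univ, Fintype.card_fin]; omega)
    exact ⟨S, hS⟩
  have hcard : Fintype.card {v // v ∉ S₀} = n - (k - 3) := by
    rw [Fintype.card_subtype_compl, Fintype.card_coe, Fintype.card_fin, hS₀]
  have h := hN {v // v ∉ S₀} (G.comap Subtype.val) G.indepNum (by
    intro S hS
    have hc : (S.map (Function.Embedding.subtype _) ∪ S₀).card ≤ k := by
      refine (Finset.card_union_le _ _).trans ?_
      rw [Finset.card_map, hS, hS₀]; omega
    obtain ⟨T, t1, t2, t3⟩ := stable_set hst _ hc hkn
    rw [Finset.disjoint_left] at t3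
    refine ⟨T.subtype (fun v => v ∉ S₀), ?_, ?_, ?_⟩
    · intro x hx y hy hxy
      rw [mem_subtype] at hx hy
      exact t1 _ hx _ hy hxy
    · rw [Finset.card_subtype, Finset.filter_true_of_mem, t2]
      intro x hx hxS
      exact t3 hx (mem_union_right _ hxS)
    · rw [Finset.disjoint_left]
      intro x hx hxS
      rw [mem_subtype] at hx
      exact t3 hx (mem_union_left _ (mem_map.mpr ⟨x, hxS, rfl⟩))) (by
    intro T hT
    have := card_le_of_ind G (T.map (Function.Embedding.subtype _)) (by
      intro x hx y hy hxy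
      rw [mem_map] at hx hy
      obtain ⟨x', hx', rfl⟩ := hx
      obtain ⟨y', hy', rfl⟩ := hy
      exact hT x' hx' y' hy' hxy)
    rwa [Finset.card_map] at this) (by rw [hcard]; omega)
  rw [hcard] at h
  omega

theorem eq_top {n : ℕ} {G : SimpleGraph (Fin n)} (h : G.indepNum = 1) : G = ⊤ := by
  ext x y
  rw [SimpleGraph.top_adj]
  constructor
  · exact fun hxy => hxy.ne
  · intro hne
    by_contra hxy
    have := card_le_of_ind G {x, y} (by
      intro u hu v hv huv
      simp only [mem_insert, mem_singleton] at hu hv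
      rcases hu with rfl | rfl <;> rcases hv with rfl | rfl
      · exact G.irrefl huv
      · exact hxy huv
      · exact hxy huv.symm
      · exact G.irrefl huv)
    rw [Finset.card_pair hne, h] at this
    omega

/-- **Theorem.** There is a positive `k₀` such that for every `k ≥ k₀` every tight `(k,0)`-stable
graph is isomorphic to `K_{k+1}` or to `K_{k+2}`. -/
theorem result : ∃ k₀ : ℕ, 0 < k₀ ∧ ∀ k ≥ k₀, ∀ (n : ℕ) (G : SimpleGraph (Fin n)), IsTight k G →
    Nonempty (G ≃g (⊤ : SimpleGraph (Fin (k + 1)))) ∨
    Nonempty (G ≃g (⊤ : SimpleGraph (Fin (k + 2)))) := by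
  obtain ⟨N, hN⟩ := diff_bounded
  refine ⟨N * N + 3, by omega, ?_⟩
  rintro k hk n G ⟨hst, hα⟩
  have hk3 : 3 ≤ k := by omega
  -- `n ≥ k + 1`
  have hn : k + 1 ≤ n := by
    by_contra hcon
    push Not at hcon
    have h1 : ((n : ℤ) - (k : ℤ) + 1) / 2 ≤ 0 := by omega
    rcases Nat.eq_zero_or_pos n with h0 | h0
    · omega
    · have := card_le_of_ind G {⟨0, h0⟩} (by
        intro x hx y hy hxy
        rw [mem_singleton] at hx hy
        subst hx hy
        exact G.irrefl hxy)
      rw [Finset.card_singleton] at this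
      omega
  have hdiff := hN k n G hk3 (by omega) hst (by omega)
  have hsq : (n - k) * (n - k) ≤ N * N := Nat.mul_le_mul (by omega) (by omega)
  by_cases hc : n - k ≤ 2
  · have hα1 : G.indepNum = 1 := by omega
    have hG := eq_top hα1
    subst hG
    rcases Nat.lt_or_ge (n - k) 2 with h1 | h1
    · left
      have : n = k + 1 := by omega
      subst this
      exact ⟨SimpleGraph.Iso.refl⟩
    · right
      have : n = k + 2 := by omega
      subst this
      exact ⟨SimpleGraph.Iso.refl⟩
  · exfalso
    push Not at hc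
    obtain ⟨W, hW, hcl⟩ := exists_clique hst (by omega) (by omega) (n - k) le_rfl
    obtain ⟨T, t1, t2, t3⟩ := stable_set hst (univ \ W) (by
      rw [Finset.card_univ_sdiff, Fintype.card_fin, hW]; omega) (by omega)
    have h2 : 1 < T.card := by rw [t2]; omega
    rw [Finset.one_lt_card] at h2
    obtain ⟨x, hx, y, hy, hxy⟩ := h2
    rw [Finset.disjoint_left] at t3
    have hTW : ∀ z ∈ T, z ∈ W := by
      intro z hz
      by_contra hzW
      exact t3 hz (by simp [hzW])
    exact t1 x hx y hy (hcl x (hTW x hx) y (hTW y hy) hxy)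

end Pool.Agent.Results.MP_476b05_co.OnlyComplete
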